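import Pool.Agent.Y600.DC.Stm

/-!
# Good colourings of balanced hypergraphs (Berge), from bicolourings
-/

namespace Pool.Agent.U568.DC

open Pool.Agent.Y600.DC

open Classical in
/-- colours of the edge `i` -/
noncomputable def cols {I V : Type} (R : I → V → Prop) {m : ℕ} (c : V → Fin m) (i : I) :
    Finset (Fin m) :=
  Finset.univ.filter (fun b => ∃ x, R i x ∧ c x = b)

theorem mem_cols {I V : Type} (R : I → V → Prop) {m : ℕ} (c : V → Fin m) (i : I) (b : Fin m) :
    b ∈ cols R c i ↔ ∃ x, R i x ∧ c x = b := by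
  simp [cols]

theorem t_GOOD : S_BICOL → S_GOOD := by
  intro hB I V _ _ R hR m hm hdeg
  classical
  have := Fintype.ofFinite I
  have := Fintype.ofFinite V
  have : NeZero m := ⟨by omega⟩
  obtain ⟨c, hc⟩ := Finite.exists_max (fun c : V → Fin m => ∑ i : I, (cols R c i).card)
  refine ⟨c, ?_⟩
  by_contra hcon
  push Not at hcon
  obtain ⟨i₀, p, hp⟩ := hcon
  have hdeg0 : m ≤ (Finset.univ.filter (fun x => R i₀ x)).card := by
    have h := hdeg i₀
    rwa [Set.ncard_eq_toFinset_card', Set.toFinset_ofPred] at h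
  have hcard : ((Finset.univ : Finset (Fin m)).erase p).card <
      (Finset.univ.filter (fun x => R i₀ x)).card := by
    rw [Finset.card_erase_of_mem (Finset.mem_univ p), Finset.card_univ, Fintype.card_fin]
    omega
  obtain ⟨x, hx, y, hy, hxy, hcxy⟩ := Finset.exists_ne_map_eq_of_card_lt_of_maps_to hcard
    (f := c) (by
      intro z hz
      have hz' : R i₀ z := by simpa using hz
      simp only [Finset.coe_erase, Finset.coe_univ, Set.mem_sdiff, Set.mem_univ,
        Set.mem_singleton_iff, true_and]
      exact hp z hz')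
  have hx' : R i₀ x := by simpa using hx
  have hy' : R i₀ y := by simpa using hy
  obtain ⟨q, hq⟩ : ∃ q, q = c x := ⟨_, rfl⟩
  have hpq : p ≠ q := by
    rw [hq]; exact fun h => hp x hx' h.symm
  obtain ⟨d, hd⟩ := hB I V R hR (Finset.univ.filter (fun z => c z = p ∨ c z = q))
  simp only [Finset.mem_filter, Finset.mem_univ, true_and] at hd
  let c' : V → Fin m := fun z => if c z = p ∨ c z = q then (if d z = true then p else q) else c z
  have hc'W : ∀ z, (c z = p ∨ c z = q) → (c' z = p ∨ c' z = q) := by
    intro z hz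
    simp only [c', if_pos hz]
    split_ifs
    · exact Or.inl rfl
    · exact Or.inr rfl
  have hc'N : ∀ z, ¬ (c z = p ∨ c z = q) → c' z = c z := by
    intro z hz
    simp only [c', if_neg hz]
  -- a pair of vertices in W gives both colours
  have hboth : ∀ i, (∃ x, (c x = p ∨ c x = q) ∧ ∃ y, (c y = p ∨ c y = q) ∧
      x ≠ y ∧ R i x ∧ R i y) → p ∈ cols R c' i ∧ q ∈ cols R c' i := by
    intro i hi
    constructor
    · obtain ⟨z, hzW, hzR, hzd⟩ := hd i hi true
      rw [mem_cols]
      refine ⟨z, hzR, ?_⟩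
      simp only [c', if_pos hzW, if_pos hzd]
    · obtain ⟨z, hzW, hzR, hzd⟩ := hd i hi false
      rw [mem_cols]
      refine ⟨z, hzR, ?_⟩
      simp only [c', if_pos hzW, hzd]
      simp
  have hother : ∀ i b, b ≠ p → b ≠ q → (b ∈ cols R c i ↔ b ∈ cols R c' i) := by
    intro i b hbp hbq
    rw [mem_cols, mem_cols]
    constructor
    · rintro ⟨z, hzR, rfl⟩
      exact ⟨z, hzR, hc'N z (by tauto)⟩
    · rintro ⟨z, hzR, hz⟩
      by_cases hzW : c z = p ∨ c z = q
      · rcases hc'W z hzW with h | h
        · exact absurd (hz.symm.trans h) hbp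
        · exact absurd (hz.symm.trans h) hbq
      · exact ⟨z, hzR, (hc'N z hzW).symm.trans hz⟩
  have hle : ∀ i, (cols R c i).card ≤ (cols R c' i).card := by
    intro i
    by_cases hi : ∃ x, (c x = p ∨ c x = q) ∧ ∃ y, (c y = p ∨ c y = q) ∧ x ≠ y ∧ R i x ∧ R i y
    · apply Finset.card_le_card
      intro b hb
      by_cases hbp : b = p
      · rw [hbp]; exact (hboth i hi).1
      by_cases hbq : b = q
      · rw [hbq]; exact (hboth i hi).2
      exact (hother i b hbp hbq).1 hb
    · push Not at hi
      rw [← Finset.card_filter_add_card_filter_not (s := cols R c i) (fun b => b = p ∨ b = q),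
        ← Finset.card_filter_add_card_filter_not (s := cols R c' i) (fun b => b = p ∨ b = q)]
      have h2 : (cols R c i).filter (fun b => ¬ (b = p ∨ b = q)) =
          (cols R c' i).filter (fun b => ¬ (b = p ∨ b = q)) := by
        ext b
        simp only [Finset.mem_filter]
        constructor
        · rintro ⟨h1, h2⟩
          exact ⟨(hother i b (by tauto) (by tauto)).1 h1, h2⟩
        · rintro ⟨h1, h2⟩
          exact ⟨(hother i b (by tauto) (by tauto)).2 h1, h2⟩
      rw [h2]
      apply Nat.add_le_add_right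
      by_cases he : ((cols R c i).filter (fun b => b = p ∨ b = q)).Nonempty
      · have h1 : ((cols R c i).filter (fun b => b = p ∨ b = q)).card ≤ 1 := by
          rw [Finset.card_le_one]
          intro a ha b hb
          rw [Finset.mem_filter, mem_cols] at ha hb
          obtain ⟨⟨u, huR, hu⟩, ha2⟩ := ha
          obtain ⟨⟨v, hvR, hv⟩, hb2⟩ := hb
          by_contra hab
          have huv : u ≠ v := by
            rintro rfl
            exact hab (hu.symm.trans hv)
          exact hi u (by rw [hu]; exact ha2) v (by rw [hv]; exact hb2) huv huR hvR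
        have h3 : 1 ≤ ((cols R c' i).filter (fun b => b = p ∨ b = q)).card := by
          rw [Nat.one_le_iff_ne_zero, ← Nat.pos_iff_ne_zero, Finset.card_pos]
          obtain ⟨a, ha⟩ := he
          rw [Finset.mem_filter, mem_cols] at ha
          obtain ⟨⟨u, huR, hu⟩, ha2⟩ := ha
          refine ⟨c' u, ?_⟩
          rw [Finset.mem_filter, mem_cols]
          exact ⟨⟨u, huR, rfl⟩, hc'W u (by rw [hu]; exact ha2)⟩
        omega
      · rw [Finset.not_nonempty_iff_eq_empty] at he
        rw [he]
        simp
  have hlt : (cols R c i₀).card < (cols R c' i₀).card := by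
    have hi : ∃ x, (c x = p ∨ c x = q) ∧ ∃ y, (c y = p ∨ c y = q) ∧ x ≠ y ∧ R i₀ x ∧ R i₀ y :=
      ⟨x, Or.inr hq.symm, y, Or.inr (hcxy.symm.trans hq.symm), hxy, hx', hy'⟩
    apply Finset.card_lt_card
    rw [Finset.ssubset_iff_of_subset]
    · refine ⟨p, (hboth i₀ hi).1, ?_⟩
      rw [mem_cols]
      rintro ⟨z, hzR, hz⟩
      exact hp z hzR hz
    · intro b hb
      by_cases hbp : b = p
      · rw [hbp]; exact (hboth i₀ hi).1
      by_cases hbq : b = q
      · rw [hbq]; exact (hboth i₀ hi).2
      exact (hother i₀ b hbp hbq).1 hb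
  have hsum : ∑ i : I, (cols R c i).card < ∑ i : I, (cols R c' i).card :=
    Finset.sum_lt_sum (fun i _ => hle i) ⟨i₀, Finset.mem_univ _, hlt⟩
  exact absurd (hc c') (not_le.mpr hsum)

end Pool.Agent.U568.DC
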