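import Pool.Agent.Y600.DC.Stm

/-!
# Rounding fractional covers of balanced hypergraphs, from good colourings
-/

namespace Pool.Agent.U568.DC

open Pool.Agent.Y600.DC

theorem special_cols {m : ℕ} (hm : 3 ≤ m) {I V : Type} (R : I → V → Prop) (e : ZMod m → I)
    (y : ZMod m → V)
    (h : ∀ i j, R (e i) (y j) ↔ (j = i ∨ j = i + 1)) : Function.Injective y := by
  intro j k hjk
  have : NeZero m := ⟨by omega⟩
  have h1 : (k = j ∨ k = j + 1) := by
    rw [← h j k, ← hjk]
    exact (h j j).2 (Or.inl rfl)
  have h2 : (j = k ∨ j = k + 1) := by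
    rw [← h k j, hjk]
    exact (h k k).2 (Or.inl rfl)
  rcases h1 with h1 | h1
  · exact h1.symm
  rcases h2 with h2 | h2
  · exact h2
  exfalso
  have h3 : (2 : ZMod m) = 0 := by
    have : j = j + 2 := by
      calc j = k + 1 := h2
        _ = j + 1 + 1 := by rw [h1]
        _ = j + 2 := by ring
    have h4 : j + 0 = j + 2 := by rw [add_zero]; exact this
    exact (add_left_cancel h4).symm
  have h4 : ((2 : ℕ) : ZMod m) = 0 := by exact_mod_cast h3
  rw [ZMod.natCast_eq_zero_iff] at h4
  have := Nat.le_of_dvd (by norm_num) h4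
  omega

theorem t_ROUND : S_GOOD → S_ROUND := by
  intro hG I V _ _ R hR a m hm hdeg
  classical
  let R' : I → (Σ x : V, Fin (a x)) → Prop := fun i z => R i z.1
  have hR' : RelBalanced R' := by
    intro n hn hn3 e z hz h
    exact hR n hn hn3 e (fun j => (z j).1) (special_cols hn3 R e (fun j => (z j).1) h) h
  have hdeg' : ∀ i, m ≤ {z | R' i z}.ncard := by
    intro i
    refine (hdeg i).trans (le_of_eq ?_)
    rw [Set.ncard_eq_toFinset_card', Set.toFinset_ofPred]
    have : (Finset.univ.filter fun z : (Σ x : V, Fin (a x)) => R' i z) =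
        (Finset.univ.filter (fun x => R i x)).sigma (fun x => (Finset.univ : Finset (Fin (a x)))) := by
      ext z
      simp [R']
    rw [this, Finset.card_sigma]
    simp
  obtain ⟨c, hc⟩ := hG I (Σ x : V, Fin (a x)) R' hR' m hm hdeg'
  have hcount : ∑ b : Fin m, (Finset.univ.filter (fun z => c z = b)).card = ∑ x, a x := by
    have h1 := Finset.card_eq_sum_card_fiberwise (f := c) (s := Finset.univ) (t := Finset.univ)
      (fun z _ => by simp)
    rw [← h1, Finset.card_univ, Fintype.card_sigma]
    simp
  obtain ⟨b, hb⟩ : ∃ b : Fin m, m * (Finset.univ.filter (fun z => c z = b)).card ≤ ∑ x, a x := by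
    by_contra hcon
    push Not at hcon
    have hlt : ∑ b : Fin m, (∑ x, a x) <
        ∑ b : Fin m, m * (Finset.univ.filter (fun z => c z = b)).card := by
      apply Finset.sum_lt_sum_of_nonempty
      · exact ⟨⟨0, by omega⟩, Finset.mem_univ _⟩
      · intro b _
        exact hcon b
    rw [← Finset.mul_sum, hcount, Finset.sum_const, Finset.card_univ, Fintype.card_fin,
      smul_eq_mul] at hlt
    exact lt_irrefl _ hlt
  refine ⟨(Finset.univ.filter (fun z => c z = b)).image (fun z => z.1), ?_, ?_⟩
  · intro i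
    obtain ⟨z, hz, hzb⟩ := hc i b
    refine ⟨z.1, ?_, hz⟩
    rw [Finset.mem_image]
    exact ⟨z, by simp [hzb], rfl⟩
  · exact (Nat.mul_le_mul_left m Finset.card_image_le).trans hb

end Pool.Agent.U568.DC
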